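import Pool.Agent.Run7.h281.QF.Hdg
import Pool.Agent.Run7.h630.QF.Iface

/-! # Piece R3 of the interface `Run7/h630/QF/Iface.lean` -/

namespace Run7.h281.QF

open Run7.h630.QC Run7.h630.QF

/-- R3 -/
theorem t_R3 : S_Q5a → S_R3 := r3

end Run7.h281.QF
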