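import Pool.Agent.Run7.h630.QC.Iface
import Pool.Agent.Run7.h4.YM.SUN

/-!
# The symmetry of the centre and windows

Piece R6 of the interface `Run7/h630/QF/Iface.lean`: the proof (without importing the interface).
-/

open MeasureTheory Matrix Filter Topology
open scoped Matrix.Norms.Frobenius ComplexConjugate

namespace Run7.h281.QF.Cen

open Run7.h4.YM Run7.h630.MQ Run7.h630.QC

noncomputable section

variable {N n L l : ℕ}

/-- the centre elements vanish in the window (copy of `Run7.h630.QF.Wn`) -/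
def Wn (n L N R : ℕ) (q : ZMod n × ZMod L → ZMod N) : Prop := ∀ x : ℤ × ℤ, |x.1| ≤ R → |x.2| ≤ R →
  q ((x.1 : ZMod n), (x.2 : ZMod L)) = 0

open Classical in
/-- the sum over all centre elements which vanish in the window (copy of `Run7.h630.QF.Sw`) -/
def Sw (N n L R : ℕ) [NeZero N] [NeZero n] [NeZero L] (G : (ZMod n × ZMod L → ZMod N) → ℝ) : ℝ :=
  ∑ q ∈ (Finset.univ : Finset (ZMod n × ZMod L → ZMod N)).filter (Wn n L N R), G q

/-- the statement of R6 -/
def St6 : Prop := ∀ (N n L l k : ℕ) [NeZero N] [NeZero n] [NeZero L] [NeZero l]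
  [MeasurableSpace (SU N)] [BorelSpace (SU N)] (μ : Measure (SU N)) [IsProbabilityMeasure μ]
  [μ.IsHaarMeasure] (R : ℕ), 2 * R + 2 ≤ n → 2 * R + 2 ≤ L → ∀ φ : ℝ → ℝ, Continuous φ →
  (N : ℝ) ^ ((2 * R + 1) ^ 2) * Sw N n L R (fun q =>
      ∫ U, φ (Sq k q U) ∂(Measure.pi fun _ : Link n L l => μ)) =
    ∑ q : ZMod n × ZMod L → ZMod N, ∫ U, φ (Sq k q U) ∂(Measure.pi fun _ : Link n L l => μ)

/-! ### the centre of `SU(N)` -/

lemma om_pow_N [NeZero N] : om N 1 ^ N = 1 := by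
  unfold om
  rw [← Complex.exp_nat_mul]
  have hN : (N : ℂ) ≠ 0 := by exact_mod_cast NeZero.ne N
  rw [show (N : ℂ) * (2 * Real.pi * Complex.I * ((1 : ℕ) / N)) = 2 * Real.pi * Complex.I by
    push_cast; field_simp]
  exact Complex.exp_two_pi_mul_I

lemma om_norm1 : ‖om N 1‖ = 1 := by
  unfold om
  have h : 2 * (Real.pi : ℂ) * Complex.I * ((1 : ℕ) / N) =
      ((2 * Real.pi * (1 / N) : ℝ) : ℂ) * Complex.I := by
    push_cast; ring
  rw [h, Complex.norm_exp_ofReal_mul_I]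

/-- the centre element as a complex number -/
def zn (c : ZMod N) : ℂ := om N 1 ^ c.val

lemma zn_add [NeZero N] (a b : ZMod N) : zn (a + b) = zn a * zn b := by
  unfold zn
  rw [← pow_add, ZMod.val_add]
  conv_rhs => rw [← Nat.div_add_mod (a.val + b.val) N, pow_add, pow_mul, om_pow_N, one_pow,
    one_mul]

lemma zn_zero [NeZero N] : zn (0 : ZMod N) = 1 := by
  unfold zn
  rw [ZMod.val_zero, pow_zero]

lemma zn_norm (c : ZMod N) : ‖zn c‖ = 1 := by
  unfold zn
  rw [norm_pow, om_norm1, one_pow]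

lemma zn_pow [NeZero N] (c : ZMod N) : zn c ^ N = 1 := by
  unfold zn
  rw [← pow_mul, mul_comm, pow_mul, om_pow_N, one_pow]

/-- the centre element -/
def zc [NeZero N] (c : ZMod N) : SU N :=
  ⟨zn c • (1 : Matrix (Fin N) (Fin N) ℂ), by
    rw [SU_mem_iff]
    constructor
    · rw [star_smul, star_one, smul_mul_smul_comm, one_mul]
      have h : zn c * star (zn c) = 1 := by
        have := Complex.mul_conj' (zn c)
        rw [zn_norm] at this
        simpa using this
      rw [h, one_smul]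
    · rw [det_smul, det_one, mul_one, Fintype.card_fin, zn_pow]⟩

lemma zc_coe [NeZero N] (c : ZMod N) : (zc c).1 = zn c • (1 : Matrix (Fin N) (Fin N) ℂ) := rfl

lemma zc_mul_coe [NeZero N] (c : ZMod N) (A : SU N) : (zc c * A).1 = zn c • A.1 := by
  show (zc c).1 * A.1 = _
  rw [zc_coe, smul_mul_assoc, one_mul]

lemma zc_comm [NeZero N] (c : ZMod N) (A : SU N) : zc c * A = A * zc c := by
  apply Subtype.ext
  rw [zc_mul_coe]
  show _ = A.1 * (zc c).1
  rw [zc_coe, mul_smul_comm, mul_one]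

lemma zc_add [NeZero N] (a b : ZMod N) : zc (a + b) = zc a * zc b := by
  apply Subtype.ext
  rw [zc_mul_coe, zc_coe, zc_coe, zn_add, smul_smul]

lemma zc_zero [NeZero N] : zc (0 : ZMod N) = 1 := by
  apply Subtype.ext
  rw [zc_coe, zn_zero, one_smul]
  rfl

lemma zc_neg [NeZero N] (a : ZMod N) : zc (-a) = (zc a)⁻¹ := by
  rw [eq_inv_iff_mul_eq_one, ← zc_add, neg_add_cancel, zc_zero]

lemma zc_four [NeZero N] (p q r s : ZMod N) (a b c d : SU N) :
    (zc p * a) * (zc q * b) * (zc r * c)⁻¹ * (zc s * d)⁻¹ =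
      zc (p + q - r - s) * (a * b * c⁻¹ * d⁻¹) := by
  rw [sub_eq_add_neg, sub_eq_add_neg, zc_add, zc_add, zc_add, zc_neg, zc_neg,
    _root_.mul_inv_rev, _root_.mul_inv_rev]
  have hr : ∀ A : SU N, (zc r)⁻¹ * A = A * (zc r)⁻¹ := fun A => by
    rw [← zc_neg, zc_comm]
  have hs : ∀ A : SU N, (zc s)⁻¹ * A = A * (zc s)⁻¹ := fun A => by
    rw [← zc_neg, zc_comm]
  have hrs : ∀ A : SU N, A * ((zc r)⁻¹ * (zc s)⁻¹) = (zc r)⁻¹ * (zc s)⁻¹ * A := fun A => by
    rw [← mul_assoc, ← hr A, mul_assoc, ← hs A, mul_assoc]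
  calc (zc p * a) * (zc q * b) * (c⁻¹ * (zc r)⁻¹) * (d⁻¹ * (zc s)⁻¹)
      = zc p * (a * zc q) * b * c⁻¹ * ((zc r)⁻¹ * d⁻¹) * (zc s)⁻¹ := by group
    _ = zc p * (zc q * a) * b * c⁻¹ * (d⁻¹ * (zc r)⁻¹) * (zc s)⁻¹ := by
        rw [← zc_comm q a, hr d⁻¹]
    _ = zc p * zc q * ((a * b * c⁻¹ * d⁻¹) * ((zc r)⁻¹ * (zc s)⁻¹)) := by group
    _ = zc p * zc q * (((zc r)⁻¹ * (zc s)⁻¹) * (a * b * c⁻¹ * d⁻¹)) := by
        rw [hrs]
    _ = zc p * zc q * (zc r)⁻¹ * (zc s)⁻¹ * (a * b * c⁻¹ * d⁻¹) := by group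

/-! ### the action of the centre -/

/-- the centre elements on the links in the direction `0` -/
def ga (c : ZMod n × ZMod L → ZMod N) (e : Link n L l) : ZMod N :=
  if e.1 = 0 then c (e.2.1, e.2.2.1) else 0

/-- the change of the fluxes -/
def dc (c : ZMod n × ZMod L → ZMod N) (u : ZMod n × ZMod L) : ZMod N :=
  c u - c (u.1, u.2 + 1)

lemma plaq_ga [NeZero N] (c : ZMod n × ZMod L → ZMod N) (U : Link n L l → SU N)
    (x : Site n L l) (i j : Fin 4) :
    plaq (fun e => zc (ga c e) * U e) x i j =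
      zc (ga c (i, x) + ga c (j, x + dir i) - ga c (i, x + dir j) - ga c (j, x)) *
        plaq U x i j := by
  unfold plaq
  exact zc_four _ _ _ _ _ _ _ _

lemma zz_ga [NeZero N] (k : ℕ) (q c : ZMod n × ZMod L → ZMod N) (x : Site n L l) (i j : Fin 4)
    (hij : i < j) :
    zz N k q x i j * zn (ga c (i, x) + ga c (j, x + dir i) - ga c (i, x + dir j) - ga c (j, x)) =
      zz N k (q + dc c) x i j := by
  unfold zz
  rw [if_pos hij, if_pos hij]
  unfold z0
  by_cases h0 : i = 0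
  · subst h0
    have hj : j ≠ 0 := hij.ne'
    by_cases h1 : j = 1
    · subst h1
      have e1 : ga c (0, x) + ga c (1, x + dir 0) - ga c (0, x + dir 1) - ga c (1, x) =
          dc c (x.1, x.2.1) := by
        simp [ga, dc, dir]
      rw [e1]
      simp only [and_self, if_true]
      have e2 := zn_add (q (x.1, x.2.1)) (dc c (x.1, x.2.1))
      unfold zn at e2 ⊢
      rw [← e2]
      rfl
    · have e1 : ga c (0, x) + ga c (j, x + dir 0) - ga c (0, x + dir j) - ga c (j, x) = 0 := by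
        have hb : ((x + dir j : Site n L l).1, (x + dir j : Site n L l).2.1) = (x.1, x.2.1) := by
          fin_cases j <;> simp_all [dir]
        simp only [ga, if_true, if_neg hj]
        rw [hb]
        ring
      have hn1 : ¬((0 : Fin 4) = 0 ∧ j = 1) := fun h => h1 h.2
      rw [e1, zn_zero, mul_one, if_neg hn1, if_neg hn1]
  · have hj : j ≠ 0 := by
      intro h
      subst h
      exact absurd hij (by simp)
    have e1 : ga c (i, x) + ga c (j, x + dir i) - ga c (i, x + dir j) - ga c (j, x) = 0 := by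
      simp only [ga, if_neg h0, if_neg hj]
      ring
    have hn1 : ¬(i = 0 ∧ j = 1) := fun h => h0 h.1
    rw [e1, zn_zero, mul_one, if_neg hn1, if_neg hn1]

lemma Sq_ga [NeZero N] [NeZero n] [NeZero L] [NeZero l] (k : ℕ)
    (q c : ZMod n × ZMod L → ZMod N) (U : Link n L l → SU N) :
    Sq k q (fun e => zc (ga c e) * U e) = Sq k (q + dc c) U := by
  unfold Sq
  refine Finset.sum_congr rfl fun x _ => Finset.sum_congr rfl fun i _ =>
    Finset.sum_congr rfl fun j hj => ?_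
  rw [plaq_ga, zc_mul_coe, trace_smul, smul_eq_mul, ← mul_assoc,
    zz_ga k q c x i j (Finset.mem_Ioi.mp hj)]

lemma int_ga [NeZero N] [NeZero n] [NeZero L] [NeZero l] [MeasurableSpace (SU N)]
    [BorelSpace (SU N)] (μ : Measure (SU N)) [IsProbabilityMeasure μ] [μ.IsHaarMeasure] (k : ℕ)
    (q c : ZMod n × ZMod L → ZMod N) (φ : ℝ → ℝ) :
    ∫ U, φ (Sq k (q + dc c) U) ∂(Measure.pi fun _ : Link n L l => μ) =
      ∫ U, φ (Sq k q U) ∂(Measure.pi fun _ : Link n L l => μ) := by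
  have h := integral_mul_left_eq_self (μ := Measure.pi fun _ : Link n L l => μ)
    (fun U => φ (Sq k q U)) (fun e => zc (ga c e))
  rw [← h]
  refine integral_congr_ae (Eventually.of_forall fun U => ?_)
  show φ _ = φ _
  rw [← Sq_ga]
  rfl

/-! ### the axial gauge -/

/-- the potential of the fluxes `t` -/
def pt (R : ℕ) (t : ZMod n × ZMod L → ZMod N) (u : ZMod n × ZMod L) : ZMod N :=
  -∑ y ∈ Finset.range (u.2 + R).val, t (u.1, (y : ZMod L) - R)

lemma dc_pt [NeZero L] (R : ℕ) (t : ZMod n × ZMod L → ZMod N) (u : ZMod n × ZMod L)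
    (hu : (u.2 + R).val + 1 < L) : dc (pt R t) u = t u := by
  unfold dc pt
  have h1 : (u.2 + 1 + R).val = (u.2 + R).val + 1 := by
    have hL : 1 < L := by omega
    have h2 : (u.2 + 1 + R : ZMod L) = (u.2 + R) + 1 := by ring
    rw [h2, ZMod.val_add_of_lt]
    · rw [ZMod.val_one'' (by omega)]
    · rw [ZMod.val_one'' (by omega)]
      exact hu
  simp only
  rw [h1, Finset.sum_range_succ]
  have h3 : (((u.2 + R).val : ℕ) : ZMod L) - R = u.2 := by
    rw [ZMod.natCast_zmod_val]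
    ring
  rw [h3]
  ring

open Classical in
/-- the window -/
def WW (n L R : ℕ) : Finset (ZMod n × ZMod L) :=
  (Finset.Icc (-R : ℤ) R ×ˢ Finset.Icc (-R : ℤ) R).image
    fun x : ℤ × ℤ => ((x.1 : ZMod n), (x.2 : ZMod L))

lemma cast_inj (m R : ℕ) (h : 2 * R + 2 ≤ m) (a b : ℤ) (ha : |a| ≤ R) (hb : |b| ≤ R)
    (hab : (a : ZMod m) = b) : a = b := by
  have h1 := (ZMod.intCast_eq_intCast_iff_dvd_sub a b m).mp hab
  have h2 : |b - a| < (m : ℤ) := by
    have := abs_sub b a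
    omega
  have h3 := Int.eq_zero_of_abs_lt_dvd h1 h2
  omega

lemma card_WW (n L R : ℕ) (hn : 2 * R + 2 ≤ n) (hL : 2 * R + 2 ≤ L) :
    (WW n L R).card = (2 * R + 1) ^ 2 := by
  classical
  unfold WW
  rw [Finset.card_image_of_injOn, Finset.card_product, Int.card_Icc]
  · have : ((R : ℤ) + 1 - -(R : ℤ)).toNat = 2 * R + 1 := by omega
    rw [this, sq]
  · intro x hx y hy hxy
    simp only [Finset.coe_product, Set.mem_prod, Finset.mem_coe, Finset.mem_Icc] at hx hy
    simp only [Prod.mk.injEq] at hxy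
    have h1 := cast_inj n R hn x.1 y.1 (abs_le.mpr hx.1) (abs_le.mpr hy.1) hxy.1
    have h2 := cast_inj L R hL x.2 y.2 (abs_le.mpr hx.2) (abs_le.mpr hy.2) hxy.2
    exact Prod.ext h1 h2

lemma mem_WW (n L R : ℕ) (u : ZMod n × ZMod L) : u ∈ WW n L R ↔
    ∃ x : ℤ × ℤ, |x.1| ≤ R ∧ |x.2| ≤ R ∧ ((x.1 : ZMod n), (x.2 : ZMod L)) = u := by
  classical
  unfold WW
  simp only [Finset.mem_image, Finset.mem_product, Finset.mem_Icc, abs_le, and_assoc]

lemma WW_val (n L R : ℕ) [NeZero L] (hL : 2 * R + 2 ≤ L) (u : ZMod n × ZMod L)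
    (hu : u ∈ WW n L R) : (u.2 + R).val + 1 < L := by
  obtain ⟨x, -, h2, rfl⟩ := (mem_WW n L R u).mp hu
  have h3 : ((x.2 : ZMod L) + R) = (((x.2 + R).toNat : ℕ) : ZMod L) := by
    have h4 : ((x.2 + R).toNat : ℤ) = x.2 + R := Int.toNat_of_nonneg (by
      have := abs_le.mp h2
      omega)
    have h5 : ((((x.2 + R).toNat : ℤ)) : ZMod L) = ((x.2 + R : ℤ) : ZMod L) := by rw [h4]
    push_cast at h5
    exact h5.symm
  show ((x.2 : ZMod L) + R).val + 1 < L
  have h6 := abs_le.mp h2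
  rw [h3, ZMod.val_natCast_of_lt (by omega)]
  omega

lemma Wn_iff (n L N R : ℕ) (q : ZMod n × ZMod L → ZMod N) :
    Wn n L N R q ↔ ∀ u ∈ WW n L R, q u = 0 := by
  constructor
  · intro h u hu
    obtain ⟨x, h1, h2, rfl⟩ := (mem_WW n L R u).mp hu
    exact h x h1 h2
  · intro h x h1 h2
    exact h _ ((mem_WW n L R _).mpr ⟨x, h1, h2, rfl⟩)

open Classical in
/-- the extension by zero -/
def ex0 (W : Finset (ZMod n × ZMod L)) (s : W → ZMod N) (u : ZMod n × ZMod L) : ZMod N :=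
  if h : u ∈ W then s ⟨u, h⟩ else 0

lemma ex0_mem (W : Finset (ZMod n × ZMod L)) (s : W → ZMod N) (u : ZMod n × ZMod L)
    (h : u ∈ W) : ex0 W s u = s ⟨u, h⟩ := by
  unfold ex0
  rw [dif_pos h]

/-- every family of centre elements is the sum of a coboundary and of one which vanishes in the
window -/
def dec (n L N R : ℕ) [NeZero L] (hL : 2 * R + 2 ≤ L) :
    (WW n L R → ZMod N) × {q : ZMod n × ZMod L → ZMod N // Wn n L N R q} ≃
      (ZMod n × ZMod L → ZMod N) where
  toFun p := p.2.1 + dc (pt R (ex0 (WW n L R) p.1))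
  invFun q := (fun u => q u.1, ⟨q - dc (pt R (ex0 (WW n L R) fun u => q u.1)), by
    rw [Wn_iff]
    intro u hu
    rw [Pi.sub_apply, dc_pt R _ u (WW_val n L R hL u hu), ex0_mem _ _ u hu, sub_self]⟩)
  left_inv p := by
    obtain ⟨s, q, hq⟩ := p
    have h1 : (fun u : WW n L R => (q + dc (pt R (ex0 (WW n L R) s))) u.1) = s := by
      funext u
      rw [Pi.add_apply, (Wn_iff n L N R q).mp hq u.1 u.2,
        dc_pt R _ u.1 (WW_val n L R hL u.1 u.2), ex0_mem _ _ u.1 u.2, zero_add]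
    refine Prod.ext h1 (Subtype.ext ?_)
    show q + dc (pt R (ex0 (WW n L R) s)) -
      dc (pt R (ex0 (WW n L R) fun u => (q + dc (pt R (ex0 (WW n L R) s))) u.1)) = q
    rw [h1, add_sub_cancel_right]
  right_inv q := by
    show q - dc (pt R (ex0 (WW n L R) fun u => q u.1)) +
      dc (pt R (ex0 (WW n L R) fun u => q u.1)) = q
    rw [sub_add_cancel]

/-- R6 -/
theorem r6 : St6 := by
  classical
  intro N n L l k _ _ _ _ _ _ μ _ _ R hn hL φ _
  set G : (ZMod n × ZMod L → ZMod N) → ℝ := fun q =>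
    ∫ U, φ (Sq k q U) ∂(Measure.pi fun _ : Link n L l => μ) with hG
  have hinv : ∀ (q c : ZMod n × ZMod L → ZMod N), G (q + dc c) = G q := fun q c =>
    int_ga μ k q c φ
  show (N : ℝ) ^ ((2 * R + 1) ^ 2) * Sw N n L R G = ∑ q, G q
  rw [← (dec n L N R hL).sum_comp G, Fintype.sum_prod_type]
  have h1 : ∀ s : WW n L R → ZMod N,
      ∑ y : {q : ZMod n × ZMod L → ZMod N // Wn n L N R q}, G (dec n L N R hL (s, y)) =
        Sw N n L R G := by
    intro s
    have h2 : ∀ y : {q : ZMod n × ZMod L → ZMod N // Wn n L N R q},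
        G (dec n L N R hL (s, y)) = G y.1 := fun y => hinv _ _
    rw [Finset.sum_congr rfl fun y _ => h2 y]
    unfold Sw
    rw [Finset.sum_subtype (Finset.univ.filter (Wn n L N R)) (p := Wn n L N R)
      (fun q => by simp) G]
  rw [Finset.sum_congr rfl fun s _ => h1 s, Finset.sum_const, nsmul_eq_mul, Finset.card_univ,
    Fintype.card_fun, ZMod.card, Fintype.card_coe, card_WW n L R hn hL]
  push_cast
  ring

end

end Run7.h281.QF.Cen
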