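import Pool.Agent.Run7.h281.QC.Q5b
import Pool.Agent.Run7.h630.QC.Iface

/-!
# Hodge theory for the twisted differences, polarised

Piece R3 of the interface `Run7/h630/QF/Iface.lean`: the proof (without importing the interface).
-/

open Matrix Filter Topology
open scoped Matrix.Norms.Frobenius ComplexConjugate

namespace Run7.h281.QF

open Run7.h4.YM Run7.h630.MQ Run7.h630.QC Run7.h281.QC

noncomputable section

variable {N n L l : ℕ}


/-- the statement of R3 -/
def St3 : Prop := ∀ N : ℕ, [NeZero N] → ∃ C : ℝ, ∃ p : ℕ, 0 < C ∧ ∀ (n L l k : ℕ) [NeZero n]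
  [NeZero L] [NeZero l], Nat.Coprime k N → ∀ α : Col N, α ≠ (0, 0) →
  ∀ (f g : Fin 4 → Fin 4 → Site n L l → ℂ) (M ε : ℝ), (∀ i j x, f j i x = -f i j x) →
  (∀ i j x, g j i x = -g i j x) → (∀ i j x, ‖f i j x‖ ≤ M) →
  (∀ i j m x, i ≠ j → j ≠ m → m ≠ i →
    ‖nb k α m (g i j) x + nb k α i (g j m) x + nb k α j (g m i) x‖ ≤ ε) →
  ‖∑ x : Site n L l, ∑ i : Fin 4, ∑ j ∈ Finset.Ioi i,
      (nb k α i (pot k α f j) x - nb k α j (pot k α f i) x - f i j x) * conj (g i j x)‖ ≤
    C * vol n L l ^ p * (ε * M)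

/-- the inner product -/
def ip [NeZero n] [NeZero L] [NeZero l] (u v : Site n L l → ℂ) : ℂ := ∑ x, u x * conj (v x)

/-- the Bianchi defect -/
def BB (k : ℕ) (α : Col N) (f : Fin 4 → Fin 4 → Site n L l → ℂ) (m i j : Fin 4) :
    Site n L l → ℂ :=
  D n L l k α m (f i j) + D n L l k α i (f j m) + D n L l k α j (f m i)

lemma ip_Ds [NeZero n] [NeZero L] [NeZero l] (k : ℕ) (α : Col N) (m : Fin 4)
    (u v : Site n L l → ℂ) : ip (Ds n L l k α m u) v = ip u (D n L l k α m v) := by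
  unfold ip
  show ∑ x, (nbs k α m u x) * conj (v x) = ∑ x, u x * conj (nb k α m v x)
  simp only [nb, nbs, sub_mul, map_sub, mul_sub, Finset.sum_sub_distrib, map_mul]
  congr 1
  rw [← Equiv.sum_comp (Equiv.addRight (dir m))]
  refine Finset.sum_congr rfl fun x _ => ?_
  simp only [Equiv.coe_addRight, add_sub_cancel_right]
  ring

lemma ip_add_right [NeZero n] [NeZero L] [NeZero l] (u v w : Site n L l → ℂ) :
    ip u (v + w) = ip u v + ip u w := by
  unfold ip
  rw [← Finset.sum_add_distrib]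
  refine Finset.sum_congr rfl fun x _ => ?_
  rw [Pi.add_apply, map_add, mul_add]

lemma ip_neg_neg [NeZero n] [NeZero L] [NeZero l] (u v : Site n L l → ℂ) :
    ip (-u) (-v) = ip u v := by
  unfold ip
  refine Finset.sum_congr rfl fun x _ => ?_
  rw [Pi.neg_apply, Pi.neg_apply, map_neg, neg_mul_neg]

lemma ip_zero_left [NeZero n] [NeZero L] [NeZero l] (v : Site n L l → ℂ) : ip 0 v = 0 := by
  unfold ip
  simp

lemma ip_sum_left [NeZero n] [NeZero L] [NeZero l] {ι : Type*} (s : Finset ι)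
    (u : ι → Site n L l → ℂ) (v : Site n L l → ℂ) : ip (∑ a ∈ s, u a) v = ∑ a ∈ s, ip (u a) v := by
  unfold ip
  rw [Finset.sum_comm]
  refine Finset.sum_congr rfl fun x _ => ?_
  rw [Finset.sum_apply, Finset.sum_mul]

lemma ip_le [NeZero n] [NeZero L] [NeZero l] (u v : Site n L l → ℂ) (A B : ℝ) (hA : 0 ≤ A)
    (hu : ∀ x, ‖u x‖ ≤ A) (hv : ∀ x, ‖v x‖ ≤ B) : ‖ip u v‖ ≤ vol n L l * (A * B) := by
  unfold ip
  rw [← card_site (n := n) (L := L) (l := l)]
  refine nsum _ _ _ fun x _ => ?_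
  rw [norm_mul, RCLike.norm_conj]
  exact mul_le_mul (hu x) (hv x) (norm_nonneg _) hA

lemma half_sum (F : Fin 4 → Fin 4 → ℂ) (hs : ∀ i j, F j i = F i j) (h0 : ∀ i, F i i = 0) :
    ∑ i, ∑ j, F i j = 2 * ∑ i, ∑ j ∈ Finset.Ioi i, F i j := by
  have e0 : (Finset.Ioi (0 : Fin 4)) = {1, 2, 3} := by decide
  have e1 : (Finset.Ioi (1 : Fin 4)) = {2, 3} := by decide
  have e2 : (Finset.Ioi (2 : Fin 4)) = {3} := by decide
  have e3 : (Finset.Ioi (3 : Fin 4)) = ∅ := by decide
  simp only [Fin.sum_univ_four, e0, e1, e2, e3]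
  rw [Finset.sum_insert (by decide), Finset.sum_insert (by decide), Finset.sum_singleton,
    Finset.sum_insert (by decide), Finset.sum_singleton, Finset.sum_singleton, Finset.sum_empty]
  linear_combination h0 0 + h0 1 + h0 2 + h0 3 + hs 0 1 + hs 0 2 + hs 0 3 + hs 1 2 + hs 1 3 +
    hs 2 3

lemma cyc_sum (F : Fin 4 → Fin 4 → Fin 4 → ℂ) :
    ∑ m, ∑ i, ∑ j, F i j m = ∑ m, ∑ i, ∑ j, F m i j := by
  rw [Finset.sum_comm]
  refine Finset.sum_congr rfl fun a _ => ?_
  rw [Finset.sum_comm]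

lemma BB_cyc (k : ℕ) (α : Col N) (f : Fin 4 → Fin 4 → Site n L l → ℂ) (m i j : Fin 4) :
    BB k α f i j m = BB k α f m i j := by
  unfold BB
  abel

lemma BB_swap (k : ℕ) (α : Col N) (f : Fin 4 → Fin 4 → Site n L l → ℂ)
    (hf : ∀ i j, f j i = -f i j) (m i j : Fin 4) : BB k α f m j i = -BB k α f m i j := by
  unfold BB
  rw [hf i j, hf m i, hf j m, map_neg, map_neg, map_neg]
  abel

lemma BB_self (k : ℕ) (α : Col N) (f : Fin 4 → Fin 4 → Site n L l → ℂ)
    (hf : ∀ i j, f j i = -f i j) (hfi : ∀ i, f i i = 0) (m i : Fin 4) :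
    BB k α f m i i = 0 := by
  unfold BB
  rw [hfi i, hf m i, map_neg, map_zero]
  abel

/-- Hodge decomposition -/
lemma hodge [NeZero n] [NeZero L] [NeZero l] (k : ℕ) (α : Col N)
    (h1 : ∀ h, La n L l k α (Gr n L l k α h) = h) (h2 : ∀ h, Gr n L l k α (La n L l k α h) = h)
    (f : Fin 4 → Fin 4 → Site n L l → ℂ) (hf : ∀ i j, f j i = -f i j) (i j : Fin 4) :
    D n L l k α i (pot k α f j) - D n L l k α j (pot k α f i) - f i j =
      -∑ m : Fin 4, Ds n L l k α m (Gr n L l k α (BB k α f m i j)) := by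
  have hpot : ∀ j, pot k α f j = Gr n L l k α (∑ m : Fin 4, Ds n L l k α m (f m j)) := by
    intro j
    unfold pot
    congr 1
  have e1 : ∀ a b : Fin 4, D n L l k α a (pot k α f b) =
      Gr n L l k α (∑ m : Fin 4, Ds n L l k α m (D n L l k α a (f m b))) := by
    intro a b
    rw [hpot, comm_G k α h1 h2 _ (D_La k α a), map_sum]
    congr 1
    refine Finset.sum_congr rfl fun m _ => ?_
    exact congrArg (fun S : Module.End ℂ (Site n L l → ℂ) => S (f m b)) (D_Ds k α a m).eq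
  have e2 : Gr n L l k α (∑ m : Fin 4, Ds n L l k α m (D n L l k α m (f i j))) = f i j := by
    have e3 : ∑ m : Fin 4, Ds n L l k α m (D n L l k α m (f i j)) = La n L l k α (f i j) := by
      rw [La_eq, LinearMap.sum_apply]
      rfl
    rw [e3, h2]
  have e4 : ∑ m : Fin 4, Ds n L l k α m (Gr n L l k α (BB k α f m i j)) =
      Gr n L l k α (∑ m : Fin 4, Ds n L l k α m (BB k α f m i j)) := by
    rw [map_sum]
    exact Finset.sum_congr rfl fun m _ => comm_G k α h1 h2 _ (Ds_La k α m) _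
  conv_lhs => rw [← e2]
  rw [e4, e1, e1, ← map_sub, ← map_sub, ← map_neg, ← Finset.sum_sub_distrib,
    ← Finset.sum_sub_distrib, ← Finset.sum_neg_distrib]
  congr 1
  refine Finset.sum_congr rfl fun m _ => ?_
  rw [← map_sub, ← map_sub, ← map_neg]
  congr 1
  unfold BB
  rw [hf m j, map_neg]
  abel

/-- R3 -/
theorem r3 : S_Q5a → St3 := by
  intro h5 N _
  obtain ⟨C, hC, H⟩ := h5 N
  refine ⟨64 * C, 3, by positivity, ?_⟩
  intro n L l k _ _ _ hk α hα f g M ε hf hg hM hε
  obtain ⟨h1, h2, hG⟩ := H n L l k hk α hα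
  have hM0 : 0 ≤ M := (norm_nonneg _).trans (hM 0 0 0)
  have hε0 : 0 ≤ ε := (norm_nonneg _).trans
    (hε 0 1 2 0 (by decide) (by decide) (by decide))
  have hv := one_le_vol (n := n) (L := L) (l := l)
  have hf' : ∀ i j, f j i = -f i j := fun i j => funext fun x => hf i j x
  have hg' : ∀ i j, g j i = -g i j := fun i j => funext fun x => hg i j x
  have hself : ∀ (q : Fin 4 → Fin 4 → Site n L l → ℂ), (∀ i j, q j i = -q i j) →
      ∀ i, q i i = 0 := by
    intro q hq i
    funext x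
    have h3 : q i i x = -q i i x := congrFun (hq i i) x
    have h4 : (2 : ℂ) * q i i x = 0 := by linear_combination h3
    simpa using h4
  have hfi := hself f hf'
  have hgi := hself g hg'
  -- the terms
  set T : Fin 4 → Fin 4 → Fin 4 → ℂ := fun m i j =>
    ip (Gr n L l k α (BB k α f m i j)) (D n L l k α m (g i j)) with hT
  have hsum : ∑ x : Site n L l, ∑ i : Fin 4, ∑ j ∈ Finset.Ioi i,
      (nb k α i (pot k α f j) x - nb k α j (pot k α f i) x - f i j x) * conj (g i j x) =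
      -∑ i : Fin 4, ∑ j ∈ Finset.Ioi i, ∑ m, T m i j := by
    rw [Finset.sum_comm, ← Finset.sum_neg_distrib]
    refine Finset.sum_congr rfl fun i _ => ?_
    rw [Finset.sum_comm, ← Finset.sum_neg_distrib]
    refine Finset.sum_congr rfl fun j _ => ?_
    have e5 : ∑ x : Site n L l,
        (nb k α i (pot k α f j) x - nb k α j (pot k α f i) x - f i j x) * conj (g i j x) =
        ip (-∑ m : Fin 4, Ds n L l k α m (Gr n L l k α (BB k α f m i j))) (g i j) := by
      rw [← hodge k α h1 h2 f hf' i j]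
      rfl
    have e6 : ∀ u v : Site n L l → ℂ, ip (-u) v = -ip u v := by
      intro u v
      unfold ip
      rw [← Finset.sum_neg_distrib]
      refine Finset.sum_congr rfl fun x _ => ?_
      rw [Pi.neg_apply, neg_mul]
    rw [e5, e6, ip_sum_left]
    congr 1
    exact Finset.sum_congr rfl fun m _ => ip_Ds k α m _ _
  have hhalf : ∑ i : Fin 4, ∑ j : Fin 4, ∑ m, T m i j =
      2 * ∑ i : Fin 4, ∑ j ∈ Finset.Ioi i, ∑ m, T m i j := by
    apply half_sum (fun i j => ∑ m, T m i j)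
    · intro i j
      refine Finset.sum_congr rfl fun m _ => ?_
      simp only [hT]
      rw [BB_swap k α f hf' m i j, hg' i j, map_neg, map_neg, ip_neg_neg]
    · intro i
      refine Finset.sum_eq_zero fun m _ => ?_
      simp only [hT]
      rw [BB_self k α f hf' hfi m i, map_zero, ip_zero_left]
  have hcyc : 3 * ∑ m, ∑ i : Fin 4, ∑ j : Fin 4, T m i j = ∑ m, ∑ i : Fin 4, ∑ j : Fin 4,
      ip (Gr n L l k α (BB k α f m i j)) (BB k α g m i j) := by
    have e7 : ∑ m, ∑ i : Fin 4, ∑ j : Fin 4,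
        ip (Gr n L l k α (BB k α f m i j)) (BB k α g m i j) =
        ∑ m, ∑ i : Fin 4, ∑ j : Fin 4, T m i j +
          ∑ m, ∑ i : Fin 4, ∑ j : Fin 4, T i j m + ∑ m, ∑ i : Fin 4, ∑ j : Fin 4, T j m i := by
      rw [← Finset.sum_add_distrib, ← Finset.sum_add_distrib]
      refine Finset.sum_congr rfl fun m _ => ?_
      rw [← Finset.sum_add_distrib, ← Finset.sum_add_distrib]
      refine Finset.sum_congr rfl fun i _ => ?_
      rw [← Finset.sum_add_distrib, ← Finset.sum_add_distrib]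
      refine Finset.sum_congr rfl fun j _ => ?_
      simp only [hT]
      rw [BB_cyc k α f m i j, ← BB_cyc k α f j m i]
      conv_lhs => rw [show BB k α g m i j = D n L l k α m (g i j) + D n L l k α i (g j m) +
        D n L l k α j (g m i) from rfl]
      rw [ip_add_right, ip_add_right]
    rw [e7, cyc_sum T]
    have e8 : ∑ m, ∑ i : Fin 4, ∑ j : Fin 4, T j m i = ∑ m, ∑ i : Fin 4, ∑ j : Fin 4, T m i j :=
      (cyc_sum fun a b c => T b c a).trans (cyc_sum T)
    rw [e8]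
    ring
  have hperm : ∑ i : Fin 4, ∑ j : Fin 4, ∑ m, T m i j = ∑ m, ∑ i : Fin 4, ∑ j : Fin 4, T m i j :=
    (cyc_sum fun a b c => T b c a).trans (cyc_sum T)
  have hbb : ∀ m i j : Fin 4, ∀ x, ‖BB k α g m i j x‖ ≤ ε := by
    intro m i j x
    by_cases hij : i = j
    · subst hij
      rw [BB_self k α g hg' hgi m i]
      simpa using hε0
    by_cases hmi : m = i
    · subst hmi
      rw [BB_cyc k α g j m m, BB_self k α g hg' hgi j m]
      simpa using hε0
    by_cases hmj : m = j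
    · subst hmj
      rw [← BB_cyc k α g m i m, BB_self k α g hg' hgi i m]
      simpa using hε0
    · exact hε i j m x hij (Ne.symm hmj) hmi
  have hff : ∀ m i j : Fin 4, ∀ x, ‖BB k α f m i j x‖ ≤ 6 * M := by
    intro m i j x
    have e9 : BB k α f m i j x = nb k α m (f i j) x + nb k α i (f j m) x + nb k α j (f m i) x :=
      rfl
    rw [e9]
    have f1 := nb_le k α m (f i j) M (hM i j) x
    have f2 := nb_le k α i (f j m) M (hM j m) x
    have f3 := nb_le k α j (f m i) M (hM m i) x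
    calc _ ≤ ‖nb k α m (f i j) x‖ + ‖nb k α i (f j m) x‖ + ‖nb k α j (f m i) x‖ := norm_add₃_le
      _ ≤ _ := by linarith
  have hterm : ∀ m i j : Fin 4,
      ‖ip (Gr n L l k α (BB k α f m i j)) (BB k α g m i j)‖ ≤
        vol n L l * (C * vol n L l ^ 2 * (6 * M) * ε) := by
    intro m i j
    exact ip_le _ _ _ _ (by positivity) (fun x => Ginf k α C hC hG _ _ (hff m i j) x) (hbb m i j)
  have hall : ‖∑ m, ∑ i : Fin 4, ∑ j : Fin 4,
      ip (Gr n L l k α (BB k α f m i j)) (BB k α g m i j)‖ ≤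
      4 * (4 * (4 * (vol n L l * (C * vol n L l ^ 2 * (6 * M) * ε)))) := by
    have c4 : (((Finset.univ : Finset (Fin 4)).card : ℕ) : ℝ) = 4 := by simp
    rw [← c4]
    refine nsum _ _ _ fun m _ => ?_
    refine nsum _ _ _ fun i _ => ?_
    exact nsum _ _ _ fun j _ => hterm m i j
  rw [hsum, norm_neg]
  have hfin : ∑ i : Fin 4, ∑ j ∈ Finset.Ioi i, ∑ m, T m i j = (1 / 6 : ℂ) *
      ∑ m, ∑ i : Fin 4, ∑ j : Fin 4,
        ip (Gr n L l k α (BB k α f m i j)) (BB k α g m i j) := by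
    rw [← hcyc, ← hperm, hhalf]
    ring
  rw [hfin, norm_mul]
  have h6 : ‖(1 / 6 : ℂ)‖ = 1 / 6 := by norm_num
  rw [h6]
  calc (1 / 6 : ℝ) * _ ≤ 1 / 6 * (4 * (4 * (4 * (vol n L l * (C * vol n L l ^ 2 * (6 * M) * ε))))) :=
        mul_le_mul_of_nonneg_left hall (by norm_num)
    _ = _ := by ring

end

end Run7.h281.QF
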